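import Pool.Agent.Helper42.TGX.GoalsD

/-! Packet TGX-QD (MP_a41896_nt): the elements of the ring are in one quadratic field. -/

set_option autoImplicit false

namespace Pool.Agent.Helper23.TGX

open Pool.Agent.Helper42.TGX

section

variable {k : Type} [Field k] [CharZero k]

theorem mem_rat {a : k} {n m : ℤ} (hn : n ≠ 0) (h : (n : k) * a = m) :
    a ∈ Set.range (algebraMap ℚ k) := by
  have hn' : (n : k) ≠ 0 := Int.cast_ne_zero.2 hn
  refine ⟨(m : ℚ) / n, ?_⟩
  rw [map_div₀, map_intCast, map_intCast, div_eq_iff hn', ← h]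
  ring

theorem fin_of {a b : k} {M p q : ℤ} (hM : M ≠ 0) (h : (M : k) * b = p + q * a) :
    ∃ (m : ℕ) (p q : ℤ), m ≠ 0 ∧ (m : k) * b = p + q * a := by
  rcases lt_or_gt_of_ne hM with h0 | h0
  · refine ⟨(-M).toNat, -p, -q, by omega, ?_⟩
    have h1 : (((-M).toNat : ℕ) : k) = -(M : k) := by
      have h2 : (((-M).toNat : ℕ) : ℤ) = -M := Int.toNat_of_nonneg (by omega)
      have h3 : ((((-M).toNat : ℕ) : ℤ) : k) = ((-M : ℤ) : k) := by rw [h2]
      rw [Int.cast_natCast] at h3
      rw [h3]
      push_cast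
      ring
    rw [h1]
    push_cast
    linear_combination (-1 : k) * h
  · refine ⟨M.toNat, p, q, by omega, ?_⟩
    have h1 : ((M.toNat : ℕ) : k) = (M : k) := by
      have h2 : ((M.toNat : ℕ) : ℤ) = M := Int.toNat_of_nonneg (by omega)
      have h3 : (((M.toNat : ℕ) : ℤ) : k) = (M : k) := by rw [h2]
      rwa [Int.cast_natCast] at h3
    rw [h1]
    exact h

end

theorem t_QD (h : QFM) : Pool.Agent.Helper42.TGX.QD := by
  intro k _ _ R N h1 h2 h3 h4 h5 a b ha
  have Q : ∀ x : R, ∃ τ : ℤ, (x : k) * x - (τ : k) * x + ((N x : ℤ) : k) = 0 := by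
    intro x
    refine ⟨N (x + 1) - N x - 1, ?_⟩
    have := congrArg (Subtype.val : R → k) (h R N h1 h2 h3 h4 h5 x)
    push_cast at this ⊢
    simpa using this
  obtain ⟨ta, hta⟩ := Q a
  obtain ⟨tb, htb⟩ := Q b
  obtain ⟨a', ha'⟩ : ∃ a' : R, (a' : k) = 2 * a - ta := ⟨2 * a - (ta : R), by push_cast; rfl⟩
  obtain ⟨b', hb'⟩ : ∃ b' : R, (b' : k) = 2 * b - tb := ⟨2 * b - (tb : R), by push_cast; rfl⟩
  obtain ⟨sa, hsa⟩ := Q a'
  obtain ⟨sb, hsb⟩ := Q b'
  obtain ⟨u, hu⟩ := Q (a' * b')
  have haa : (a' : k) * a' = ((ta ^ 2 - 4 * N a : ℤ) : k) := by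
    rw [ha']
    push_cast
    linear_combination 4 * hta
  have hbb : (b' : k) * b' = ((tb ^ 2 - 4 * N b : ℤ) : k) := by
    rw [hb']
    push_cast
    linear_combination 4 * htb
  -- sa = 0
  have hsa0 : sa = 0 := by
    by_contra hne
    apply ha
    refine mem_rat (n := 2 * sa) (m := ta ^ 2 - 4 * N a + N a' + sa * ta) (by omega) ?_
    have h6 := hsa
    rw [haa, ha'] at h6
    push_cast at h6 ⊢
    linear_combination (-1 : k) * h6
  by_cases hsb0 : sb = 0
  · by_cases hNb : N b' = 0
    · have h7 : b' = 0 := h2 _ hNb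
      have h8 : (2 : k) * b - tb = 0 := by
        rw [← hb', h7]
        rfl
      refine fin_of (M := 2) (p := tb) (q := 0) (by norm_num) ?_
      push_cast
      linear_combination h8
    · have hNa : N a' ≠ 0 := by
        intro h7
        have h8 : a' = 0 := h2 _ h7
        apply ha
        refine mem_rat (n := 2) (m := ta) (by norm_num) ?_
        have h9 : (2 : k) * a - ta = 0 := by
          rw [← ha', h8]
          rfl
        push_cast
        linear_combination h9
      rw [hsa0] at hsa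
      rw [hsb0] at hsb
      rw [h4] at hu
      push_cast at hsa hsb hu
      have hu1 : (u : k) * ((a' : k) * b') = 2 * (N a' * N b') := by
        linear_combination (-1 : k) * hu + (b' : k) * b' * hsa - (N a' : k) * hsb
      have hNa' : (N a' : k) ≠ 0 := Int.cast_ne_zero.2 hNa
      have hNb' : (N b' : k) ≠ 0 := Int.cast_ne_zero.2 hNb
      have hu0 : u ≠ 0 := by
        rintro rfl
        rw [Int.cast_zero, zero_mul] at hu1
        have h7 : (2 : k) * (N a' * N b') ≠ 0 := mul_ne_zero two_ne_zero (mul_ne_zero hNa' hNb')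
        exact h7 hu1.symm
      have h9 : (u : k) * b' = -2 * N b' * a' := by
        apply mul_left_cancel₀ hNa'
        linear_combination (-(a' : k)) * hu1 + (u : k) * b' * hsa
      refine fin_of (M := 2 * u) (p := u * tb + 2 * N b' * ta) (q := - 4 * N b')
        (by omega) ?_
      rw [hb', ha'] at h9
      push_cast
      linear_combination h9
  · refine fin_of (M := 2 * sb) (p := tb ^ 2 - 4 * N b + N b' + sb * tb) (q := 0) (by omega) ?_
    have h6 := hsb
    rw [hbb, hb'] at h6
    push_cast at h6 ⊢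
    linear_combination (-1 : k) * h6

end Pool.Agent.Helper23.TGX
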